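import Pool.Agent.H6.CX.All
import Pool.Agent.H6.CX.Exi

/-! The mean electrostatic potential of Coulomb matter in thermal equilibrium, or in a ground
state, is bounded uniformly in the number of particles, in the point and in the domain. -/

open MeasureTheory Finset

namespace Pool.Agent.Results.MP_43dd88_mp.BoundedPotential

open H6.CM

/-- inner product of two wave functions -/
noncomputable def ip {q n k : ℕ} (φ ψ : (Fin n → Fin q) → Cfg n k → ℂ) : ℂ :=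
  ∑ σ, ∫ p, (starRingEnd ℂ) (φ σ p) * ψ σ p

/-- mixed states: the density matrix is `∑ i, |Ψ i⟩⟨Ψ i|`, its eigenvalues are the numbers
`mass (Ψ i)` -/
structure Mixed {m q n k : ℕ} (Λ : Set E3) (Ψ : Fin m → (Fin n → Fin q) → Cfg n k → ℂ) :
    Prop where
  st : ∀ i, St q n k Λ (Ψ i)
  ort : ∀ i j, i ≠ j → ip (Ψ i) (Ψ j) = 0
  one : ∑ i, mass (Ψ i) = 1

/-- the free energy at temperature `T`: energy minus `T` times the entropy -/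
noncomputable def FE {m q n k : ℕ} (T : ℝ) (z κ : Fin k → ℝ)
    (Ψ : Fin m → (Fin n → Fin q) → Cfg n k → ℂ) : ℝ :=
  ∑ i, energy z κ (Ψ i) - T * ∑ i, -(mass (Ψ i) * Real.log (mass (Ψ i)))

/-- equilibrium states at temperature `T`: the free energy is at most `(n + k + 1) ^ (-4)`
above the free energy of every other mixed state -/
def Equil {m q n k : ℕ} (T : ℝ) (Λ : Set E3) (z κ : Fin k → ℝ)
    (Ψ : Fin m → (Fin n → Fin q) → Cfg n k → ℂ) : Prop :=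
  Mixed Λ Ψ ∧ ∀ (m' : ℕ) (Φ : Fin m' → (Fin n → Fin q) → Cfg n k → ℂ), Mixed Λ Φ →
    FE T z κ Ψ ≤ FE T z κ Φ + (((n : ℝ) + k + 1) ^ 4)⁻¹

/-- the domains: star-shaped with respect to a ball of comparable size, or thick everywhere -/
def Dom (A D : ℝ) (Λ : Set E3) : Prop :=
  (∃ (y : E3) (r : ℝ), 0 < r ∧ Metric.ball y r ⊆ Λ ∧ Λ ⊆ Metric.ball y (A * r) ∧
    ∀ x ∈ Λ, ∀ v ∈ Metric.ball y r, segment ℝ x v ⊆ Λ) ∨
  ∀ x ∈ Λ, ∃ u, ‖x - u‖ ≤ D ∧ Metric.closedBall u 48 ⊆ Λ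

private theorem fe_eq {m q n k : ℕ} (T : ℝ) (z κ : Fin k → ℝ)
    (Ψ : Fin m → (Fin n → Fin q) → Cfg n k → ℂ) : FE T z κ Ψ = H6.CT.FE T z κ Ψ := by
  unfold FE H6.CT.FE
  rw [sum_add_distrib, sum_neg_distrib, ← mul_sum]
  ring

private theorem eq_iff {m q n k : ℕ} (T : ℝ) (Λ : Set E3) (z κ : Fin k → ℝ)
    (Ψ : Fin m → (Fin n → Fin q) → Cfg n k → ℂ) :
    Equil T Λ z κ Ψ ↔ H6.CT.Eqs T ((((n : ℝ) + k + 1) ^ 4)⁻¹) Λ z κ Ψ := by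
  constructor
  · rintro ⟨h1, h2⟩
    refine ⟨h1.st, h1.ort, h1.one, fun m' Φ a1 a2 a3 => ?_⟩
    have := h2 m' Φ ⟨a1, a2, a3⟩
    rwa [fe_eq, fe_eq] at this
  · intro h
    refine ⟨⟨h.st, h.ort, h.one⟩, fun m' Φ a => ?_⟩
    rw [fe_eq, fe_eq]
    exact h.min m' Φ a.st a.ort a.one

theorem result (q : ℕ) (T zm zp κm κp ρ1 ρ2 A D : ℝ) (hT : 0 ≤ T) (hzm : 0 < zm)
    (hκm : 0 < κm) (hρ1 : 0 < ρ1) :
    ∃ C : ℝ, ∀ (Λ : Set E3) (n k : ℕ) (z κ : Fin k → ℝ), IsOpen Λ →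
      Bornology.IsBounded Λ → Dom A D Λ →
      ρ1 * (volume Λ).toReal ≤ (n : ℝ) + k → (n : ℝ) + k ≤ ρ2 * (volume Λ).toReal →
      (∀ j, zm ≤ z j ∧ z j ≤ zp) → (∀ j, κm ≤ κ j ∧ κ j ≤ κp) → ∑ j, z j = n →
      (1 ≤ q → Λ.Nonempty → ∃ (m : ℕ) (Ψ : Fin m → (Fin n → Fin q) → Cfg n k → ℂ),
        Equil T Λ z κ Ψ) ∧
      ∀ (m : ℕ) (Ψ : Fin m → (Fin n → Fin q) → Cfg n k → ℂ), Equil T Λ z κ Ψ →
        ∀ x : E3, |∑ i, mean (Ψ i) (fun p => phi z p x)| ≤ C := by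
  obtain ⟨C, hC⟩ := H6.CX.alldom q T zm zp κm κp ρ1 ρ2 A D hT hzm hκm hρ1
  refine ⟨C, fun Λ n k z κ ho hb hd h1 h2 hz hκ hn => ⟨fun hq hne => ?_, ?_⟩⟩
  · obtain ⟨m, Ψ, h⟩ := H6.CX.eqs_ex q n k hq T ((((n : ℝ) + k + 1) ^ 4)⁻¹) zp κm hT
      (by positivity) hκm Λ ho hne hb z κ (fun j => ⟨hzm.le.trans (hz j).1, (hz j).2⟩)
      (fun j => (hκ j).1)
    exact ⟨m, Ψ, (eq_iff T Λ z κ Ψ).2 h⟩
  · intro m Ψ h x
    exact hC Λ n k z κ ho hb hd h1 h2 hz hκ hn m Ψ ((eq_iff T Λ z κ Ψ).1 h) x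

end Pool.Agent.Results.MP_43dd88_mp.BoundedPotential
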