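import Pool.Agent.H6.CB.Fin

/-! Neutral Coulomb matter without confinement (`Λ` is the whole space) at temperature zero:
the mean potential and the local density are bounded everywhere, uniformly in the number of
particles. -/

open MeasureTheory Finset

namespace Pool.Agent.Results.MP_43dd88_mp.FreeMatter

open H6.CM

theorem result (q : ℕ) (zm zp κm κp : ℝ) (hzm : 0 < zm) (hκm : 0 < κm) :
    ∃ C : ℝ, ∀ (n k : ℕ) (z κ : Fin k → ℝ),
      (∀ j, zm ≤ z j ∧ z j ≤ zp) → (∀ j, κm ≤ κ j ∧ κ j ≤ κp) → ∑ j, z j = n →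
      ∀ ψ : (Fin n → Fin q) → Cfg n k → ℂ, St q n k Set.univ ψ → mass ψ = 1 →
      (∀ ψ', St q n k Set.univ ψ' → mass ψ' = 1 →
        energy z κ ψ ≤ energy z κ ψ' + (((n : ℝ) + k + 1) ^ 4)⁻¹) →
      ∀ x : E3, |mean ψ (fun p => phi z p x)| ≤ C ∧ mean ψ (fun p => near p x) ≤ C := by
  obtain ⟨C, hC⟩ := H6.CB.free q zm zp κm κp hzm hκm
  refine ⟨C, fun n k z κ hz hκ hn ψ hψ hm he x => ?_⟩
  have h := hC n k z κ hz hκ hn ψ hψ hm he x
  exact ⟨h.1, h.2.2.2.2⟩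

end Pool.Agent.Results.MP_43dd88_mp.FreeMatter
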