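import Pool.Agent.H6.CM.BallM

/-! Coulomb matter at temperature zero: the mean potential of every near ground state is
bounded up to one additive constant and up to the local density of particles; in a ball the
additive constant is controlled by the surface density of the boundary layer. -/

open MeasureTheory Finset

namespace Pool.Agent.Results.MP_43dd88_mp.MeanPotential

open H6.CM

theorem result (q : ℕ) (zm zp κp : ℝ) (hzm : 0 < zm) : ∃ C : ℝ,
    ∀ (Λ : Set E3) (n k : ℕ) (z κ : Fin k → ℝ),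
      (∀ j, zm ≤ z j ∧ z j ≤ zp) → (∀ j, 0 ≤ κ j ∧ κ j ≤ κp) → ∑ j, z j = n →
      ∀ ψ : (Fin n → Fin q) → Cfg n k → ℂ, St q n k Λ ψ → mass ψ = 1 →
      (∀ ψ', St q n k Λ ψ' → mass ψ' = 1 → energy z κ ψ ≤ energy z κ ψ' + 1) →
      (∀ x y : E3, Metric.closedBall x 2 ⊆ Λ → Metric.closedBall y 2 ⊆ Λ →
        |mean ψ (fun p => phi z p x) - mean ψ (fun p => phi z p y)| ≤
          C * (1 + mean ψ (fun p => near p x) + mean ψ (fun p => near p y))) ∧
      (∀ R : ℝ, 7 ≤ R → Λ = Metric.ball 0 R → ∀ x : E3, Metric.closedBall x 2 ⊆ Λ →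
        |mean ψ (fun p => phi z p x)| ≤
          C * (1 + mean ψ (fun p => near p x) + mean ψ (fun p => shl (R - 6) p) / R ^ 2)) :=
  main2 q zm zp κp hzm

end Pool.Agent.Results.MP_43dd88_mp.MeanPotential
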