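import Pool.Agent.H6.CM.PairMain

/-! Hydrogen at temperature zero in a cube: the ground state energy changes by a bounded amount
when one electron and one nucleus are added. -/

open MeasureTheory Finset

namespace Pool.Agent.Results.MP_43dd88_mp.NeutralPair

open H6.CM

theorem result (q : ℕ) (hq : 1 ≤ q) (κ ρ : ℝ) (hκ : 0 ≤ κ) (hρ : 0 < ρ) : ∃ C : ℝ,
    ∀ (n : ℕ) (ℓ : ℝ), 0 < ℓ → (n : ℝ) + 1 ≤ ρ * ℓ ^ 3 →
      (Hset q n κ (cube ℓ)).Nonempty ∧ BddBelow (Hset q n κ (cube ℓ)) ∧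
      |EH q (n + 1) κ (cube ℓ) - EH q n κ (cube ℓ)| ≤ C :=
  pair_main q hq κ ρ hκ hρ

end Pool.Agent.Results.MP_43dd88_mp.NeutralPair
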